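import Pool.Agent.V11288.LZ.ParG

/-!
# The central value in the Gross–Prasad conjecture: a dichotomy with a gap for sums over Satake parameters

Let `π_n`, `π_{n+1}` be as in the problem, tempered, and `S` a finite set of places of `F` containing the infinite
and the ramified ones.  For `v ∉ S` let `a_{v,i}`, `b_{v,j}` be the eigenvalues of the Satake parameters of `π_{n+1}`,
`π_n` in the standard representations; they have absolute value `1`, and both families are closed under inversion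
(orthogonal and symplectic groups).  Let

`L(s) = ∏_{v ∉ S} ∏_{i,j} (1 - a_{v,i} b_{v,j} q_v^{-s})⁻¹`  for `Re s > 1`

(`L(s, π_{n+1} ⊠ π_n)` without the factors at `S`), meromorphic at the points of the real interval `[1/2, 1]` and
holomorphic at `1/2`.  Under the local conditions of the problem the sign of the functional equation is `+1`; we use
it only near `1/2`: there is a function `g`, holomorphic at `1/2` with `g(1/2) ≠ 0` (the product of the factors at
`S`), with `g(s) L(s) = g(1-s) L(1-s)` near `1/2`.  For `X > 1` let, with `u = k log q_v / log X`,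

`V_γ(X) = ∑_{v ∉ S} ∑_{k ≥ 1} (∑_i a_{v,i}^k) (∑_j b_{v,j}^k) / (k q_v^{k/2}) · cos(γu) / Γ(1 + u)`.

Let `γ > π/2`.

1. If `L(1/2) ≠ 0`, then `V_γ(X)` is bounded for `X → ∞`; more precisely
   `V_γ(X) = log |L(1/2)| - Re(iπz) + O(1/log X) = log |L(1/2)| + O(1/log X)`.

2. If `L(1/2) = 0`, then `V_γ(X) ≤ -2 log log X + O(1)`; more precisely `V_γ(X) = -r log log X + O(1)` with the order
   `r ≥ 2` of `L` at `1/2`, an even number.

3. So `L(1/2) ≠ 0` if and only if for some `c < 2` there are arbitrarily large `X` with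
   `V_γ(X) ≥ -c log log X`.

With 3. the condition `Λ ≠ 0` of Q1 can be replaced by a statement on the Satake parameters at a sequence of `X`.

Proof.  `Pool.Agent.V11288.LZ`, built on `Pool.Agent.V11290.UL`.
-/

set_option autoImplicit false

namespace Pool.Agent.Results.MP_6342b0_nt.GapBySatake

open Filter Topology Set NumberField IsDedekindDomain

variable {F : Type} [Field F] [NumberField F] {S : Set (HeightOneSpectrum (𝓞 F))} {N M : ℕ}

/-- `q_v`. -/
noncomputable def nrm (v : HeightOneSpectrum (𝓞 F)) : ℕ := Ideal.absNorm v.asIdeal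

/-- A family of numbers of absolute value `1`, closed under inversion at every `v`. -/
structure IsTempered {n : ℕ} (a : {v : HeightOneSpectrum (𝓞 F) // v ∉ S} → Fin n → ℂ) : Prop where
  norm : ∀ v i, ‖a v i‖ = 1
  inv : ∀ v, ∃ π : Equiv.Perm (Fin n), ∀ i, a v (π i) = (a v i)⁻¹

/-- `L`: the Euler product for `Re s > 1`, meromorphic at the points of `[1/2, 1]`, holomorphic at `1/2`, with a
functional equation of sign `+1` near `1/2`. -/
structure IsLFunction (a : {v : HeightOneSpectrum (𝓞 F) // v ∉ S} → Fin N → ℂ)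
    (b : {v : HeightOneSpectrum (𝓞 F) // v ∉ S} → Fin M → ℂ) (L : ℂ → ℂ) : Prop where
  mero : ∀ x ∈ Icc (1 / 2 : ℝ) 1, MeromorphicAt L (x : ℂ)
  holo : AnalyticAt ℂ L (1 / 2)
  prod : ∀ s : ℂ, 1 < s.re → L s =
    ∏' v, ∏ y : Fin N × Fin M, (1 - a v y.1 * b v y.2 * (nrm v.1 : ℂ) ^ (-s))⁻¹
  sign : ∃ g : ℂ → ℂ, AnalyticAt ℂ g (1 / 2) ∧ g (1 / 2) ≠ 0 ∧
    ∀ᶠ s in 𝓝 (1 / 2 : ℂ), g s * L s = g (1 - s) * L (1 - s)

/-- The term of `V_γ(X)` at `(v, k)`. -/
noncomputable def term (a : {v : HeightOneSpectrum (𝓞 F) // v ∉ S} → Fin N → ℂ)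
    (b : {v : HeightOneSpectrum (𝓞 F) // v ∉ S} → Fin M → ℂ) (γ X : ℝ)
    (v : {v : HeightOneSpectrum (𝓞 F) // v ∉ S}) (k : ℕ) : ℝ :=
  ((∑ i, a v i ^ k) * ∑ j, b v j ^ k).re / (k * ((nrm v.1 : ℝ) ^ (1 / 2 : ℝ)) ^ k) *
    (Real.cos (γ * (k * Real.log (nrm v.1) / Real.log X)) /
      Real.Gamma (1 + k * Real.log (nrm v.1) / Real.log X))

/-- `V_γ(X)`, the sum over `v ∉ S` and `k ≥ 1` (here `k = x.2 + 1`). -/
noncomputable def V (a : {v : HeightOneSpectrum (𝓞 F) // v ∉ S} → Fin N → ℂ)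
    (b : {v : HeightOneSpectrum (𝓞 F) // v ∉ S} → Fin M → ℂ) (γ X : ℝ) : ℝ :=
  ∑' x : {v : HeightOneSpectrum (𝓞 F) // v ∉ S} × ℕ, term a b γ X x.1 (x.2 + 1)

open Pool.Agent.V11288.LZ

/-- the family of the products -/
def fam (a : {v : HeightOneSpectrum (𝓞 F) // v ∉ S} → Fin N → ℂ)
    (b : {v : HeightOneSpectrum (𝓞 F) // v ∉ S} → Fin M → ℂ) (v : {v | v ∉ S}) (y : Fin N × Fin M) : ℂ :=
  a v y.1 * b v y.2

section proof

variable {a : {v : HeightOneSpectrum (𝓞 F) // v ∉ S} → Fin N → ℂ}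
  {b : {v : HeightOneSpectrum (𝓞 F) // v ∉ S} → Fin M → ℂ}

omit [NumberField F] in
theorem real_sum {n : ℕ} {a : {v : HeightOneSpectrum (𝓞 F) // v ∉ S} → Fin n → ℂ} (h : IsTempered a)
    (v : {v : HeightOneSpectrum (𝓞 F) // v ∉ S}) (k : ℕ) : (∑ i, a v i ^ k).im = 0 := by
  rw [← Complex.conj_eq_iff_im, map_sum]
  obtain ⟨π, hπ⟩ := h.inv v
  refine Fintype.sum_equiv π _ _ fun i => ?_
  rw [hπ, map_pow]
  congr 1
  have h1 : a v i ≠ 0 := by
    rw [← norm_ne_zero_iff, h.norm]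
    exact one_ne_zero
  have h2 : a v i * (starRingEnd ℂ) (a v i) = 1 := by
    rw [Complex.mul_conj, Complex.normSq_eq_norm_sq, h.norm]
    norm_num
  exact eq_inv_of_mul_eq_one_right h2

omit [NumberField F] in
theorem fam_sum (v : {v : HeightOneSpectrum (𝓞 F) // v ∉ S}) (k : ℕ) :
    ∑ y, fam a b v y ^ k = (∑ i, a v i ^ k) * ∑ j, b v j ^ k := by
  rw [Finset.sum_mul_sum, Fintype.sum_prod_type]
  refine Finset.sum_congr rfl fun i _ => Finset.sum_congr rfl fun j _ => ?_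
  unfold fam
  rw [mul_pow]

/-- the order of a function with a symmetry is even -/
theorem even_order {L g : ℂ → ℂ} {r : ℤ} {l : ℂ} (hl : l ≠ 0)
    (h : Tendsto (fun s : ℂ => L s / (s - 1 / 2) ^ r) (𝓝[≠] (1 / 2)) (𝓝 l))
    (hg : AnalyticAt ℂ g (1 / 2)) (hg0 : g (1 / 2) ≠ 0)
    (hs : ∀ᶠ s in 𝓝 (1 / 2 : ℂ), g s * L s = g (1 - s) * L (1 - s)) : Even r := by
  have hgc : Tendsto g (𝓝[≠] (1 / 2)) (𝓝 (g (1 / 2))) :=
    hg.continuousAt.tendsto.mono_left nhdsWithin_le_nhds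
  have hrefl : Tendsto (fun s : ℂ => 1 - s) (𝓝[≠] (1 / 2 : ℂ)) (𝓝[≠] (1 / 2 : ℂ)) := by
    refine tendsto_nhdsWithin_iff.2 ⟨?_, ?_⟩
    · have h1 : Tendsto (fun s : ℂ => 1 - s) (𝓝 (1 / 2 : ℂ)) (𝓝 (1 - 1 / 2)) :=
        (continuous_const.sub continuous_id).tendsto _
      have h2 : (1 : ℂ) - 1 / 2 = 1 / 2 := by norm_num
      rw [h2] at h1
      exact h1.mono_left nhdsWithin_le_nhds
    · filter_upwards [self_mem_nhdsWithin] with s hs h3
      apply hs
      have h4 : (1 : ℂ) - s = 1 / 2 := h3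
      show s = 1 / 2
      linear_combination -h4
  have h1 := hgc.mul h
  have h2 := h1.comp hrefl
  have h3 : Tendsto (fun s : ℂ => (-1 : ℂ) ^ r * (g (1 - s) * (L (1 - s) / ((1 - s) - 1 / 2) ^ r)))
      (𝓝[≠] (1 / 2)) (𝓝 ((-1 : ℂ) ^ r * (g (1 / 2) * l))) := h2.const_mul _
  have h4 : Tendsto (fun s : ℂ => g s * (L s / (s - 1 / 2) ^ r)) (𝓝[≠] (1 / 2))
      (𝓝 ((-1 : ℂ) ^ r * (g (1 / 2) * l))) := by
    refine h3.congr' ?_
    filter_upwards [self_mem_nhdsWithin, hs.filter_mono nhdsWithin_le_nhds] with s hs1 hs2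
    have h5 : s - 1 / 2 ≠ 0 := sub_ne_zero.2 hs1
    have h6 : (1 - s) - 1 / 2 = -1 * (s - 1 / 2) := by ring
    rw [h6, mul_zpow, mul_div_assoc', mul_div_assoc', ← hs2]
    have h7 : (-1 : ℂ) ^ r ≠ 0 := zpow_ne_zero _ (by norm_num)
    have h8 : (s - 1 / 2) ^ r ≠ 0 := zpow_ne_zero _ h5
    field_simp
  have h5 := tendsto_nhds_unique h1 h4
  have h6 : g (1 / 2) * l ≠ 0 := mul_ne_zero hg0 hl
  have h7 : (-1 : ℂ) ^ r = 1 := by
    have h8 : ((-1 : ℂ) ^ r - 1) * (g (1 / 2) * l) = 0 := by linear_combination -h5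
    rcases mul_eq_zero.1 h8 with h9 | h9
    · linear_combination h9
    · exact absurd h9 h6
  rcases Int.even_or_odd r with h8 | h8
  · exact h8
  · rw [h8.neg_one_zpow] at h7
    norm_num at h7

end proof

/-- **The gap for the central value.** -/
theorem result (a : {v : HeightOneSpectrum (𝓞 F) // v ∉ S} → Fin N → ℂ)
    (b : {v : HeightOneSpectrum (𝓞 F) // v ∉ S} → Fin M → ℂ) (ha : IsTempered a) (hb : IsTempered b)
    (L : ℂ → ℂ) (hL : IsLFunction a b L) (γ : ℝ) (hγ : Real.pi / 2 < γ) :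
    (L (1 / 2) ≠ 0 → (fun X : ℝ => V a b γ X - Real.log ‖L (1 / 2)‖) =O[atTop]
      (fun X : ℝ => 1 / Real.log X)) ∧
    (L (1 / 2) = 0 → ∃ r : ℤ, 2 ≤ r ∧ Even r ∧ meromorphicOrderAt L (1 / 2) = r ∧
      ∃ C X₀ : ℝ, ∀ X ≥ X₀, |V a b γ X + r * Real.log (Real.log X)| ≤ C) ∧
    (L (1 / 2) ≠ 0 ↔ ∃ c < (2 : ℝ), ∃ᶠ X in atTop, -c * Real.log (Real.log X) ≤ V a b γ X) := by
  have hα : ∀ (v : {v | v ∉ S}) (y : Fin N × Fin M),
      ‖fam a b v y‖ ≤ (Ideal.absNorm v.1.asIdeal : ℝ) ^ (0 : ℝ) := fun v y => by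
    unfold fam
    rw [norm_mul, ha.norm, hb.norm, Real.rpow_zero, mul_one]
  have hm : ∀ x ∈ Icc (1 / 2 : ℝ) (1 + 0), MeromorphicAt L (x : ℂ) := fun x hx =>
    hL.mero x (by simpa using hx)
  have hp : ∀ s : ℂ, (1 : ℝ) + 0 < s.re → L s = ∏' v : {v | v ∉ S}, ∏ y,
      (1 - fam a b v y * ((Ideal.absNorm v.1.asIdeal : ℕ) : ℂ) ^ (-s))⁻¹ := fun s hs =>
    hL.prod s (by linarith)
  have hreal : ∀ (v : {v | v ∉ S}) (k : ℕ), ((jmat (S := {v | v ∉ S}) (fam a b) v) ^ k).trace.im = 0 := by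
    intro v k
    rw [jtr, fam_sum, Complex.mul_im, real_sum ha, real_sum hb]
    ring
  have hV : vot (fun v : {v | v ∉ S} => (Ideal.absNorm v.1.asIdeal : ℝ))
      (jmat (S := {v | v ∉ S}) (fam a b)) (1 / 2) γ = V a b γ := by
    funext X
    unfold vot V
    refine tsum_congr fun x => ?_
    unfold rtm term
    rw [jtr, fam_sum]
    rfl
  have hhalf : ((1 / 2 : ℝ) : ℂ) = 1 / 2 := by push_cast; rfl
  obtain ⟨h1, h2, -, -⟩ := (jeul hα).real hreal (1 / 2) hm (fun s hs => by rw [jprod, hp s hs])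
  obtain ⟨r, l, h5, h6, h7, h8⟩ := h1 γ hγ
  rw [hhalf] at h6 h7
  have hlaw := (h2 γ r hγ).2 (by rw [hhalf]; exact h6)
  rw [hV] at hlaw
  obtain ⟨C, X₀, hC⟩ := hlaw
  have hcont : Tendsto L (𝓝[≠] (1 / 2)) (𝓝 (L (1 / 2))) :=
    hL.holo.continuousAt.tendsto.mono_left nhdsWithin_le_nhds
  have hr0 : 0 ≤ r := by
    have h9 := hL.holo.meromorphicOrderAt_nonneg
    rw [h6] at h9
    exact_mod_cast h9
  have hev : Even r := by
    obtain ⟨g, hg, hg0, hgs⟩ := hL.sign
    exact even_order (l := (l : ℂ)) (by exact_mod_cast h5) h7 hg hg0 hgs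
  have hzero : L (1 / 2) ≠ 0 ↔ r = 0 := by
    constructor
    · intro h
      by_contra hr
      have hpos : 0 < r := lt_of_le_of_ne hr0 (Ne.symm hr)
      have h9 := (tendsto_zero_iff_meromorphicOrderAt_pos hL.holo.meromorphicAt).2 (by
        rw [h6]
        exact_mod_cast hpos)
      exact h (tendsto_nhds_unique hcont h9)
    · intro h h0
      rw [h] at h7
      simp only [zpow_zero, div_one] at h7
      have := tendsto_nhds_unique hcont h7
      rw [h0] at this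
      exact h5 (by exact_mod_cast this.symm)
  have hll : Tendsto (fun X : ℝ => Real.log (Real.log X)) atTop atTop :=
    Real.tendsto_log_atTop.comp Real.tendsto_log_atTop
  have hsecond : L (1 / 2) = 0 → ∃ r : ℤ, 2 ≤ r ∧ Even r ∧ meromorphicOrderAt L (1 / 2) = r ∧
      ∃ C X₀ : ℝ, ∀ X ≥ X₀, |V a b γ X + r * Real.log (Real.log X)| ≤ C := by
    intro h
    have hr : r ≠ 0 := fun h9 => hzero.2 h9 h
    refine ⟨r, ?_, hev, h6, C, X₀, hC⟩
    obtain ⟨t, ht⟩ := hev
    omega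
  refine ⟨fun h => ?_, hsecond, ⟨fun h => ?_, ?_⟩⟩
  · have hr := hzero.1 h
    rw [hr] at h7 h8
    simp only [zpow_zero, div_one] at h7
    have hval : L (1 / 2) = (l : ℂ) := tendsto_nhds_unique hcont h7
    rw [hval, Complex.norm_real, Real.norm_eq_abs]
    have hre : ∀ X : ℝ, 1 < X → V a b γ X =
        (tot (fun v : {v | v ∉ S} => (Ideal.absNorm v.1.asIdeal : ℝ))
          (jmat (S := {v | v ∉ S}) (fam a b)) (1 / 2) γ X).re := by
      intro X hX
      have hsum := (((jeul hα).final' (1 / 2) hm (fun s hs => by rw [jprod, hp s hs]) hγ).1 X hX).of_norm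
      rw [← hV]
      unfold vot tot
      rw [Complex.re_tsum hsum]
      exact tsum_congr fun x => by rw [rtm_eq hreal]
    refine Asymptotics.IsBigO.trans ?_ h8
    refine Asymptotics.IsBigO.of_bound 1 ?_
    filter_upwards [eventually_gt_atTop 1] with X hX
    rw [one_mul, hre X hX]
    have h10 := Complex.abs_re_le_norm (tot (fun v : {v | v ∉ S} => (Ideal.absNorm v.1.asIdeal : ℝ))
      (jmat (S := {v | v ∉ S}) (fam a b)) (1 / 2) γ X +
      ((0 : ℤ) : ℂ) * (Real.log (Real.log X) - Pool.Agent.W187.UR.Lam γ) -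
      (Real.log |l| - Real.pi * excessR L (1 / 2) * Complex.I))
    refine le_trans (le_of_eq ?_) h10
    rw [Real.norm_eq_abs]
    congr 1
    simp
  · refine ⟨1, by norm_num, ?_⟩
    have hr := hzero.1 h
    rw [hr] at hC
    refine Eventually.frequently ?_
    filter_upwards [eventually_ge_atTop X₀, hll.eventually (eventually_ge_atTop C)] with X hX1 hX2
    have := (abs_le.1 (hC X hX1)).1
    push_cast at this
    linarith
  · rintro ⟨c, hc, hfr⟩ h0
    obtain ⟨r', hr2, -, -, C', X', hC'⟩ := hsecond h0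
    have hpos : (0 : ℝ) < 2 - c := by linarith
    have hbig : Tendsto (fun X : ℝ => (2 - c) * Real.log (Real.log X)) atTop atTop :=
      hll.const_mul_atTop hpos
    have h9 := hfr.and_eventually ((eventually_ge_atTop X').and
      ((hbig.eventually (eventually_gt_atTop C')).and (hll.eventually (eventually_ge_atTop 0))))
    obtain ⟨X, hX1, hX2, hX3, hX4⟩ := h9.exists
    have h10 := (abs_le.1 (hC' X hX2)).2
    have hr2' : (2 : ℝ) ≤ r' := by exact_mod_cast hr2
    nlinarith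

end Pool.Agent.Results.MP_6342b0_nt.GapBySatake
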